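import Mathlib

set_option autoImplicit false

/-!
A generic checker for the fixed point property of a finite poset on `{0,...,n-1}` given by
bit masks (arc consistency + branching), with its soundness proof.
-/

namespace Pool.Agent.H506R2.FPP

/-- union of the masks `tbl[i]` over the bits `i < k` of `m` -/
def bigOr (tbl : List ℕ) (m : ℕ) : ℕ → ℕ
  | 0 => 0
  | k + 1 => if m.testBit k then bigOr tbl m k ||| tbl.getD k 0 else bigOr tbl m k

lemma testBit_bigOr {tbl : List ℕ} {m k i j : ℕ} (hi : i < k) (hm : m.testBit i = true)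
    (hj : (tbl.getD i 0).testBit j = true) : (bigOr tbl m k).testBit j = true := by
  induction k with
  | zero => omega
  | succ k ih =>
    rw [bigOr]
    rcases Nat.lt_succ_iff_lt_or_eq.mp hi with h | h
    · split_ifs
      · rw [Nat.testBit_or, ih h, Bool.true_or]
      · exact ih h
    · subst h
      rw [if_pos hm, Nat.testBit_or, hj, Bool.or_true]

/-- one arc consistency step for the relation `x < y` -/
def step (n : ℕ) (up dn : List ℕ) (D : List ℕ) (c : ℕ × ℕ) : List ℕ :=
  let nx := D.getD c.1 0 &&& bigOr dn (D.getD c.2 0) n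
  let D1 := D.set c.1 nx
  let ny := D1.getD c.2 0 &&& bigOr up (D1.getD c.1 0) n
  D1.set c.2 ny

def sweep (n : ℕ) (up dn : List ℕ) (cov : List (ℕ × ℕ)) (D : List ℕ) : List ℕ :=
  cov.foldl (step n up dn) D

def sweeps (n : ℕ) (up dn : List ℕ) (cov : List (ℕ × ℕ)) : ℕ → List ℕ → List ℕ
  | 0, D => D
  | k + 1, D => sweeps n up dn cov k (sweep n up dn cov D)

/-- `search`: `xs` is the list of branching elements, by depth -/
def search (n : ℕ) (up dn : List ℕ) (cov : List (ℕ × ℕ)) (r : ℕ) : List ℕ → List ℕ → Bool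
  | [], D => (sweeps n up dn cov r D).any (· == 0)
  | x :: xs, D =>
    let E := sweeps n up dn cov r D
    E.any (· == 0) ||
      (List.range n).all fun v =>
        !((E.getD x 0).testBit v) || search n up dn cov r xs (E.set x (2 ^ v))

/-- `f` is compatible with the domains `D` -/
def Inv (n : ℕ) (f : ℕ → ℕ) (D : List ℕ) : Prop :=
  D.length = n ∧ ∀ x < n, (D.getD x 0).testBit (f x) = true

structure Good (n : ℕ) (up dn : List ℕ) (cov : List (ℕ × ℕ)) (f : ℕ → ℕ) : Prop where
  lt : ∀ x < n, f x < n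
  cov : ∀ c ∈ cov, c.1 < n ∧ c.2 < n ∧ c.1 ≠ c.2 ∧ (up.getD (f c.1) 0).testBit (f c.2) = true ∧
    (dn.getD (f c.2) 0).testBit (f c.1) = true

lemma getD_set_self {D : List ℕ} {x v : ℕ} (h : x < D.length) : (D.set x v).getD x 0 = v := by
  simp [List.getD_eq_getElem?_getD, h]

lemma getD_set_ne {D : List ℕ} {x y v : ℕ} (h : x ≠ y) : (D.set x v).getD y 0 = D.getD y 0 := by
  simp [List.getD_eq_getElem?_getD, h]

variable {n : ℕ} {up dn : List ℕ} {cov : List (ℕ × ℕ)} {f : ℕ → ℕ}

lemma inv_set {D : List ℕ} (hD : Inv n f D) {x v : ℕ} (hx : x < n)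
    (hv : v.testBit (f x) = true) : Inv n f (D.set x v) := by
  refine ⟨by simp [hD.1], fun y hy => ?_⟩
  by_cases hxy : x = y
  · subst hxy
    rw [getD_set_self (by rw [hD.1]; exact hx)]
    exact hv
  · rw [getD_set_ne hxy]
    exact hD.2 y hy

lemma inv_step (hf : Good n up dn cov f) {D : List ℕ} (hD : Inv n f D) {c : ℕ × ℕ}
    (hc : c ∈ cov) : Inv n f (step n up dn D c) := by
  obtain ⟨h1, h2, h3, h4, h5⟩ := hf.cov c hc
  have e1 : Inv n f (D.set c.1 (D.getD c.1 0 &&& bigOr dn (D.getD c.2 0) n)) := by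
    apply inv_set hD h1
    rw [Nat.testBit_and, hD.2 _ h1, Bool.true_and]
    exact testBit_bigOr (hf.lt _ h2) (hD.2 _ h2) h5
  unfold step
  apply inv_set e1 h2
  rw [Nat.testBit_and, e1.2 _ h2, Bool.true_and]
  exact testBit_bigOr (hf.lt _ h1) (e1.2 _ h1) h4

lemma inv_sweep (hf : Good n up dn cov f) {D : List ℕ} (hD : Inv n f D) :
    Inv n f (sweep n up dn cov D) := by
  unfold sweep
  have : ∀ (l : List (ℕ × ℕ)), (∀ c ∈ l, c ∈ cov) → ∀ D, Inv n f D →
      Inv n f (l.foldl (step n up dn) D) := by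
    intro l
    induction l with
    | nil => intro _ D hD; exact hD
    | cons c l ih =>
      intro hl D hD
      rw [List.foldl_cons]
      exact ih (fun c hc => hl c (List.mem_cons_of_mem _ hc)) _
        (inv_step hf hD (hl c List.mem_cons_self))
  exact this cov (fun _ h => h) D hD

lemma inv_sweeps (hf : Good n up dn cov f) (r : ℕ) {D : List ℕ} (hD : Inv n f D) :
    Inv n f (sweeps n up dn cov r D) := by
  induction r generalizing D with
  | zero => exact hD
  | succ r ih => exact ih (inv_sweep hf hD)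

lemma not_any_zero {D : List ℕ} (hD : Inv n f D) : D.any (· == 0) = false := by
  rw [List.any_eq_false]
  intro v hv hv0
  have hv0' : v = 0 := by simpa using hv0
  subst hv0'
  obtain ⟨i, hi, h⟩ := List.mem_iff_getElem.mp hv
  have := hD.2 i (by rw [← hD.1]; exact hi)
  rw [List.getD_eq_getElem _ _ hi, h, Nat.zero_testBit] at this
  exact Bool.noConfusion this

theorem search_sound (hf : Good n up dn cov f) (r : ℕ) (xs : List ℕ) (hxs : ∀ x ∈ xs, x < n)
    {D : List ℕ} (hD : Inv n f D) : search n up dn cov r xs D = false := by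
  induction xs generalizing D with
  | nil =>
    rw [search]
    exact not_any_zero (inv_sweeps hf r hD)
  | cons x xs ih =>
    have hE := inv_sweeps hf r hD
    have hx := hxs x List.mem_cons_self
    rw [search]
    simp only [not_any_zero hE, Bool.false_or]
    rw [List.all_eq_false]
    refine ⟨f x, List.mem_range.mpr (hf.lt x hx), ?_⟩
    rw [hE.2 x hx, Bool.not_true, Bool.false_or]
    rw [ih (fun y hy => hxs y (List.mem_cons_of_mem _ hy)) (inv_set hE hx (by simp))]
    simp

end Pool.Agent.H506R2.FPP
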